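import Pool.Agent.L0h33.LD.Main

/-!
# Each proper inclusion in `P ⊆ RP ⊆ NP` contains every countable partial order

`RP[g]` is the class of the languages which have a polynomial-time machine with one-sided error
that uses `g (n)` random bits (`Rnd g 1`), and `SP[s]` the class of the languages which have a
polynomial-time machine with one-sided error (any polynomial number of random bits) and success
probability at least `2 ^ (- s (n))` (`SPr s`). So `P = RP[0]`, `RP` is the union of the classes
`RP[p]`, `RP = SP[1]`, and `NP` is the union of the classes `SP[p]`, `p` a polynomial.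

* `P ≠ RP` if and only if for every countable partial order `I` there are functions `g i ≤ n` such
  that `RP[g i] ⊆ RP[g j]` if `i ≤ j`, and otherwise `RP[g i]` contains a language which is not
  even polynomial-time Turing reducible to a language in `RP[g j]`. All these classes are different
  from `P`, and none contains a language which is hard for `RP` under Turing reductions.
* `RP ≠ NP` if and only if the same holds for the classes `SP[s i]`, `s i ≤ max 1 n`, and many-one
  reductions, between `RP` and `NP`.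
* Two different classes `RP[r, s] ⊆ RP[r', s']` (with `r (n)` random bits and success probability
  `2 ^ (- s (n))`) are the ends of an interval into which every countable partial order can be
  embedded, for all nice bounds.

Idea. A language `L` in the larger class but not in the smaller one is padded so that the bounds
are linear, and restricted to the lengths `n` with `h i n = 1`. The functions `h i` are computed by
a slow search for inputs on which machines for the smaller class fail; at such lengths the machines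
of the class number `j` are those of the smaller class, if `h j n = 0`. This is possible although
`RP` is not known to be recursively presentable, since a machine can fail by violating the promise.
-/

set_option autoImplicit false

namespace Pool.Agent.Results.MP_b573ec_lc.CountableOrders

open Pool.Agent.NPC Pool.Agent.L0h33.LD
open Pool.Agent.H620R2.Gauge (IsP)
open Pool.Agent.Y600.FB (chi)

theorem result :
    ((∃ L, InRP L ∧ ¬ InP L) ↔ ∀ (I : Type) [Countable I] [PartialOrder I],
      ∃ (g : I → ℕ → ℕ) (L : I → Set (List Bool)),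
        (∀ i, Nice (g i) ∧ (∀ n, g i n ≤ n) ∧ Rnd (g i) (fun _ => 1) (L i) ∧ ¬ InP (L i) ∧
          ∃ L', InRP L' ∧ ∀ A, Rnd (g i) (fun _ => 1) A → ¬ IsP (chi A) L') ∧
        ∀ i j, (i ≤ j → (∀ n, g i n ≤ g j n) ∧
            ∀ A, Rnd (g i) (fun _ => 1) A → Rnd (g j) (fun _ => 1) A) ∧
          (¬ i ≤ j → ∀ A, Rnd (g j) (fun _ => 1) A → ¬ IsP (chi A) (L i))) ∧
    ((∃ L, InNPw L ∧ ¬ InRP L) ↔ ∀ (I : Type) [Countable I] [PartialOrder I],
      ∃ (s : I → ℕ → ℕ) (L : I → Set (List Bool)),
        (∀ i, Nice (s i) ∧ (∀ n, 1 ≤ s i n ∧ s i n ≤ max 1 n) ∧ SPr (s i) (L i) ∧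
          ¬ InRP (L i) ∧ ∃ L', InNPw L' ∧ ∀ A, SPr (s i) A → ¬ Reduces L' A) ∧
        ∀ i j, (i ≤ j → (∀ n, s i n ≤ s j n) ∧ ∀ A, SPr (s i) A → SPr (s j) A) ∧
          (¬ i ≤ j → ∀ A, SPr (s j) A → ¬ Reduces (L i) A)) ∧
    (∀ r r' s s' : ℕ → ℕ, Nice r → Nice r' → Nice s → Nice s' → (∀ n, r n ≤ r' n) →
      (∀ n, s n ≤ s' n) → (∃ L, Rnd r' s' L ∧ ¬ Rnd r s L) →
      ∀ (I : Type) [Countable I] [PartialOrder I],
        ∃ (ρ σ : I → ℕ → ℕ) (L : I → Set (List Bool)),
          (∀ i, Nice (ρ i) ∧ Nice (σ i) ∧ Rnd (ρ i) (σ i) (L i) ∧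
            ∀ n, (ρ i n = r n ∧ σ i n = s n) ∨ (ρ i n = r' n ∧ σ i n = s' n)) ∧
          ∀ i j, (i ≤ j → (∀ n, ρ i n ≤ ρ j n ∧ σ i n ≤ σ j n) ∧
              ∀ A, Rnd (ρ i) (σ i) A → Rnd (ρ j) (σ j) A) ∧
            (¬ i ≤ j → ¬ Rnd (ρ j) (σ j) (L i))) := by
  refine ⟨p_rp, rp_np, fun r r' s s' hr hr' hs hs' hrr hss hne I _ _ => ?_⟩
  obtain ⟨ρ, σ, L, h1, h2⟩ := interval hr hr' hs hs' hrr hss hne I
  refine ⟨ρ, σ, L, h1, fun i j => ⟨fun hij => ⟨(h2 i j).1 hij, fun A hA => ?_⟩, (h2 i j).2⟩⟩
  exact rnd_mono (h1 i).1 (fun n => ((h2 i j).1 hij n).1) (fun n => ((h2 i j).1 hij n).2) hA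

end Pool.Agent.Results.MP_b573ec_lc.CountableOrders
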