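import Pool.Agent.L0h33.RR.Main

/-!
# The classes between `P` and `NP` relative to a random oracle

`RP[r, s]` is the class of the languages with a polynomial-time machine with one-sided error that
uses `r (n)` random bits and has success probability at least `2 ^ (- s (n))` (`RndA A r s`),
`SP[s]` the union of the classes `RP[p, s]`, `p` a polynomial (`SPA A s`), and `G[g]` the class of
the languages with a nondeterministic polynomial-time machine that guesses `g (n)` bits (`GA A g`).
So `RP = SP[1]`, and `NP` is the union of the classes `G[p]`.

For almost every oracle `A`, and all bounds that can be computed in polynomial time from `n` in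
unary, relative to `A`:

* `RP[r, s] = G[min r s]` and `SP[s] = G[s]`. In particular `RP = P`.
* `G[g] ⊆ G[g']` if and only if `g ≤ g' + O(log n)`.

So relative to a random oracle the inclusions between all the classes `RP[r, s]` are exactly those
forced by ignoring unused random bits, and by trying polynomially many strings: `P = RP[r, s]` if
and only if `min r s = O(log n)`, and `RP[r, s] ⊆ RP[r', s']` if and only if
`min r s ≤ min r' s' + O(log n)`. The success probability of a machine for a language between `RP`
and `NP` can be improved by polynomial factors only.

Ideas. The random bits of an algorithm can be taken from the oracle, from places which are named by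
a guessed string of length `s`; for almost every oracle one of the `2 ^ s` guesses, each tried
`2 n + 2` times, succeeds, for all inputs of length `n` and all large `n`. For the separation:
an algorithm that guesses `g'` bits cannot find the only string of length `g` which is marked in
the oracle, and then changes at one marked place show that it errs with probability bounded from
below, for infinitely many input lengths.
-/

set_option autoImplicit false

namespace Pool.Agent.Results.MP_b573ec_lc.RandomOracleClasses

open Pool.Agent.NPC Pool.Agent.L0h33.LD Pool.Agent.L0h33.RR MeasureTheory
open Pool.Agent.H620R2.Gauge (IsP)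
open Pool.Agent.H628R3.RO (randomOracle)

theorem result : ∀ᵐ A ∂randomOracle,
    (∀ r s, Nice r → Nice s → ∀ L, RndA A r s L ↔ GA A (fun n => min (r n) (s n)) L) ∧
    (∀ s, Nice s → ∀ L, SPA A s L ↔ GA A s L) ∧
    (∀ L, SPA A (fun _ => 1) L ↔ IsP A L) ∧
    (∀ g g', Nice g → Nice g' → ((∀ L, GA A g L → GA A g' L) ↔
      ∃ c, ∀ n, g n ≤ g' n + c * Nat.log 2 (n + 2))) := main

end Pool.Agent.Results.MP_b573ec_lc.RandomOracleClasses
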